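import Pool.Agent.Y37.GF.Cl

/-!
# K-SB, algebraic part (helper259, for project JK of helper120)
-/

set_option autoImplicit false

namespace Pool.Agent.Y259.K

open Pool.Agent.Y113 Pool.Agent.Y37.GF

section real

variable {Δ : ℕ}

/-- the degree -/
def Nd (e : Ex Δ) : ℕ := ∑ i, (e.1 i : ℕ)

theorem Nd_le (e : Ex Δ) : Nd e ≤ Δ := e.2.1

theorem Nd_eq (e : Ex Δ) : Nd e = (e.1 0 : ℕ) + (e.1 1 : ℕ) + (e.1 2 : ℕ) + (e.1 3 : ℕ) := by
  unfold Nd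
  rw [Fin.sum_univ_four]

/-- a combination of monomials on the surface, as a polynomial -/
noncomputable def pol (c : Ex Δ → ℝ) : MvPolynomial (Fin 3) ℝ :=
  ∑ e, MvPolynomial.C (c e) * MvPolynomial.X 0 ^ ((e.1 0 : ℕ) + (Δ - (e.1 3 : ℕ))) *
    MvPolynomial.X 1 ^ (e.1 1 : ℕ) * MvPolynomial.X 2 ^ (e.1 2 : ℕ) *
    (MvPolynomial.X 1 * MvPolynomial.X 2 - 1) ^ (e.1 3 : ℕ)

theorem pol_eval (c : Ex Δ → ℝ) (y : Fin 3 → ℝ) (hf : y 0 ≠ 0) :
    MvPolynomial.eval y (pol c) =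
      y 0 ^ Δ * ∑ e, c e * mv ![y 0, y 1, y 2, (y 1 * y 2 - 1) / y 0] e := by
  unfold pol
  rw [map_sum, Finset.mul_sum]
  refine Finset.sum_congr rfl fun e _ => ?_
  have h4 : (e.1 3 : ℕ) ≤ Δ := Nat.lt_succ_iff.1 (e.1 3).2
  have h5 : y 0 ^ (Δ - (e.1 3 : ℕ)) * y 0 ^ (e.1 3 : ℕ) = y 0 ^ Δ := by
    rw [← pow_add]; congr 1; omega
  simp only [map_mul, map_pow, map_sub, map_one, MvPolynomial.eval_C, MvPolynomial.eval_X, mv,
    Fin.prod_univ_four, Matrix.cons_val]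
  rw [div_pow, pow_add, ← h5]
  field_simp

theorem surface (c : Ex Δ → ℝ)
    (h : ∀ y : Fin 4 → ℝ, y 0 ≠ 0 → y 0 * y 3 - y 1 * y 2 = -1 → ∑ e, c e * mv y e = 0) :
    ∀ e, c e = 0 := by
  refine mono_indep c fun y hy => ?_
  by_cases h0 : y 0 = 0
  · have h1 : y 1 ≠ 0 := by
      intro h1
      rw [h0, h1] at hy
      norm_num at hy
    obtain ⟨F, hF⟩ : ∃ F : ℝ → ℝ, F = fun ε => ∑ e, c e * mv ![ε, y 1, (1 + ε * y 3) / y 1, y 3] e :=
      ⟨_, rfl⟩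
    have hcont : Continuous F := by
      rw [hF]
      unfold mv
      refine continuous_finsetSum _ fun e _ => continuous_const.mul ?_
      simp only [Fin.prod_univ_four, Matrix.cons_val]
      fun_prop
    have hz : Set.EqOn F (fun _ => 0) {0}ᶜ := by
      intro ε hε
      have hε' : ε ≠ 0 := hε
      rw [hF]
      refine h _ (by simpa using hε') ?_
      simp only [Matrix.cons_val]
      field_simp
      ring
    have h2 := Continuous.ext_on (dense_compl_singleton (0 : ℝ)) hcont continuous_const hz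
    have h3 : F 0 = 0 := congrFun h2 0
    rw [hF] at h3
    have h4 : (![0, y 1, (1 + 0 * y 3) / y 1, y 3] : Fin 4 → ℝ) = y := by
      funext i
      fin_cases i
      · exact h0.symm
      · rfl
      · change (1 + 0 * y 3) / y 1 = y 2
        rw [h0] at hy
        field_simp
        linarith
      · rfl
    dsimp only at h3
    rw [h4] at h3
    exact h3
  · exact h y h0 hy

/-- a product of two combinations which vanishes on the surface -/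
theorem surface_prod (c : Ex Δ → ℝ)
    (h : ∀ y : Fin 4 → ℝ, y 0 ≠ 0 → y 0 * y 3 - y 1 * y 2 = -1 →
      (∑ e, c e * mv y e) * (∑ e, (-1 : ℝ) ^ Nd e * c e * mv y e) = 0) : ∀ e, c e = 0 := by
  have h1 : MvPolynomial.X 0 * (pol c * pol (fun e : Ex Δ => (-1 : ℝ) ^ Nd e * c e)) = 0 := by
    apply MvPolynomial.funext
    intro y
    rw [map_mul, map_mul, MvPolynomial.eval_X, map_zero]
    by_cases h0 : y 0 = 0
    · rw [h0, zero_mul]
    · rw [pol_eval c y h0, pol_eval _ y h0]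
      have h2 := h ![y 0, y 1, y 2, (y 1 * y 2 - 1) / y 0] (by simpa using h0) (by
        simp only [Matrix.cons_val]
        field_simp
        ring)
      linear_combination (y 0 * y 0 ^ Δ * y 0 ^ Δ) * h2
  have h2 : pol c = 0 ∨ pol (fun e : Ex Δ => (-1 : ℝ) ^ Nd e * c e) = 0 := by
    rcases mul_eq_zero.1 h1 with h3 | h3
    · exact absurd h3 (MvPolynomial.X_ne_zero 0)
    · exact mul_eq_zero.1 h3
  have h3 : ∀ d : Ex Δ → ℝ, pol d = 0 → ∀ e, d e = 0 := by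
    intro d hd
    refine surface d fun y h0 hy => ?_
    have h4 := pol_eval d ![y 0, y 1, y 2] (by simpa using h0)
    rw [hd, map_zero] at h4
    simp only [Matrix.cons_val] at h4
    have h5 : (![y 0, y 1, y 2, (y 1 * y 2 - 1) / y 0] : Fin 4 → ℝ) = y := by
      funext i
      fin_cases i
      · rfl
      · rfl
      · rfl
      · change (y 1 * y 2 - 1) / y 0 = y 3
        field_simp
        linarith
    rw [h5] at h4
    exact (mul_eq_zero.1 h4.symm).resolve_left (pow_ne_zero _ h0)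
  rcases h2 with h4 | h4
  · exact h3 c h4
  · intro e
    have h5 := h3 _ h4 e
    exact (mul_eq_zero.1 h5).resolve_left (pow_ne_zero _ (by norm_num))

end real

section cplx

variable {Δ : ℕ}

/-- a monomial with complex values -/
noncomputable def mc (u : Fin 4 → ℂ) (e : Ex Δ) : ℂ := ∏ i, u i ^ (e.1 i : ℕ)

theorem mc_cast (y : Fin 4 → ℝ) (e : Ex Δ) : mc (fun i => (y i : ℂ)) e = ((mv y e : ℝ) : ℂ) := by
  unfold mc mv
  push_cast
  rfl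

theorem mc_neg (u : Fin 4 → ℂ) (e : Ex Δ) : mc (fun i => -u i) e = (-1) ^ Nd e * mc u e := by
  unfold mc
  rw [Nd, ← Finset.prod_pow_eq_pow_sum, ← Finset.prod_mul_distrib]
  refine Finset.prod_congr rfl fun i _ => ?_
  rw [← mul_pow]
  congr 1
  ring

variable {A : Type} [CommRing A]

/-- the two halves -/
noncomputable def half (Rh D1 D2 bh wh th : A) (c : Ex Δ → A) (r : ℕ) : A :=
  ∑ e with Nd e % 2 = r, c e * Rh ^ (Nd e / 2) * D1 ^ (Δ - Nd e / 2) * bh ^ (e.1 1 : ℕ) *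
    wh ^ (e.1 2 : ℕ) * th ^ (e.1 3 : ℕ) * D2 ^ (Δ - ((e.1 1 : ℕ) + (e.1 3 : ℕ)))

theorem half_eq (R D1 D2 b w t : ℂ) (c : Ex Δ → ℂ) (r : ℕ) :
    half (D1 * R) D1 D2 (D2 * b) w (D2 * t) c r =
      D1 ^ Δ * D2 ^ Δ * ∑ e with Nd e % 2 = r, c e * (R ^ (Nd e / 2) * b ^ (e.1 1 : ℕ) *
        w ^ (e.1 2 : ℕ) * t ^ (e.1 3 : ℕ)) := by
  unfold half
  rw [Finset.mul_sum]
  refine Finset.sum_congr rfl fun e _ => ?_
  have h1 : D1 ^ (Nd e / 2) * D1 ^ (Δ - Nd e / 2) = D1 ^ Δ := by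
    rw [← pow_add]
    congr 1
    have := Nd_le e
    omega
  have h2 : D2 ^ (e.1 1 : ℕ) * D2 ^ (e.1 3 : ℕ) * D2 ^ (Δ - ((e.1 1 : ℕ) + (e.1 3 : ℕ))) =
      D2 ^ Δ := by
    rw [← pow_add, ← pow_add]
    congr 1
    have := Nd_le e
    rw [Nd_eq] at this
    omega
  rw [mul_pow, mul_pow, mul_pow]
  calc c e * (D1 ^ (Nd e / 2) * R ^ (Nd e / 2)) * D1 ^ (Δ - Nd e / 2) *
      (D2 ^ (e.1 1 : ℕ) * b ^ (e.1 1 : ℕ)) * w ^ (e.1 2 : ℕ) *
      (D2 ^ (e.1 3 : ℕ) * t ^ (e.1 3 : ℕ)) * D2 ^ (Δ - ((e.1 1 : ℕ) + (e.1 3 : ℕ)))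
      = (D1 ^ (Nd e / 2) * D1 ^ (Δ - Nd e / 2)) *
        (D2 ^ (e.1 1 : ℕ) * D2 ^ (e.1 3 : ℕ) * D2 ^ (Δ - ((e.1 1 : ℕ) + (e.1 3 : ℕ)))) *
        (c e * (R ^ (Nd e / 2) * b ^ (e.1 1 : ℕ) * w ^ (e.1 2 : ℕ) * t ^ (e.1 3 : ℕ))) := by ring
    _ = _ := by rw [h1, h2]

theorem halves (f b w t : ℂ) (c : Ex Δ → ℂ) :
    (∑ e with Nd e % 2 = 0, c e * ((f ^ 2) ^ (Nd e / 2) * b ^ (e.1 1 : ℕ) * w ^ (e.1 2 : ℕ) *
      t ^ (e.1 3 : ℕ))) +
    f * (∑ e with Nd e % 2 = 1, c e * ((f ^ 2) ^ (Nd e / 2) * b ^ (e.1 1 : ℕ) * w ^ (e.1 2 : ℕ) *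
      t ^ (e.1 3 : ℕ))) = ∑ e, c e * mc ![f, f * b, f * w, f * t] e := by
  rw [← Finset.sum_filter_add_sum_filter_not Finset.univ (fun e : Ex Δ => Nd e % 2 = 0)
    (fun e => c e * mc ![f, f * b, f * w, f * t] e)]
  have hmc : ∀ e : Ex Δ, mc ![f, f * b, f * w, f * t] e = f ^ Nd e * (b ^ (e.1 1 : ℕ) *
      w ^ (e.1 2 : ℕ) * t ^ (e.1 3 : ℕ)) := by
    intro e
    rw [Nd_eq]
    simp only [mc, Fin.prod_univ_four, Matrix.cons_val]
    rw [pow_add, pow_add, pow_add]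
    ring
  congr 1
  · refine Finset.sum_congr rfl fun e he => ?_
    have h1 := (Finset.mem_filter.1 he).2
    rw [hmc, ← pow_mul, Nat.mul_div_cancel' (Nat.dvd_of_mod_eq_zero h1)]
    ring
  · rw [Finset.mul_sum]
    have h2 : (Finset.univ.filter fun e : Ex Δ => Nd e % 2 = 1) =
        Finset.univ.filter fun e : Ex Δ => ¬ Nd e % 2 = 0 := by
      refine Finset.filter_congr fun e _ => ?_
      constructor
      · intro h3 h4
        rw [h3] at h4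
        exact one_ne_zero h4
      · intro h3
        exact Nat.mod_two_ne_zero.1 h3
    rw [← h2]
    refine Finset.sum_congr rfl fun e he => ?_
    have h1 : Nd e % 2 = 1 := (Finset.mem_filter.1 he).2
    have h3 : f ^ Nd e = f * (f ^ 2) ^ (Nd e / 2) := by
      rw [← pow_mul, ← pow_succ']
      exact congrArg (fun n => f ^ n) (by omega)
    rw [hmc, h3]
    ring

/-- the value of the product at the points of the surface -/
theorem val_eq (D1 D2 R f b w t : ℂ) (hR : R = f ^ 2) (c : Ex Δ → ℂ) :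
    D1 * half (D1 * R) D1 D2 (D2 * b) w (D2 * t) c 0 ^ 2 -
      D1 * R * half (D1 * R) D1 D2 (D2 * b) w (D2 * t) c 1 ^ 2 =
    D1 * (D1 ^ Δ * D2 ^ Δ) ^ 2 * ((∑ e, c e * mc ![f, f * b, f * w, f * t] e) *
      (∑ e, c e * mc (fun i => -(![f, f * b, f * w, f * t] i)) e)) := by
  rw [half_eq, half_eq, hR]
  have h1 := halves f b w t c
  have h2 := halves (-f) b w t c
  have h3 : (![-f, -f * b, -f * w, -f * t] : Fin 4 → ℂ) =
      fun i => -(![f, f * b, f * w, f * t] i) := by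
    funext i
    fin_cases i
    · rfl
    · exact neg_mul _ _
    · exact neg_mul _ _
    · exact neg_mul _ _
  rw [h3, neg_sq] at h2
  rw [← h1, ← h2]
  ring

theorem map_half {B : Type} [CommRing B] (φ : A →+* B) (Rh D1 D2 bh wh th : A) (c : Ex Δ → A)
    (r : ℕ) : φ (half Rh D1 D2 bh wh th c r) =
      half (φ Rh) (φ D1) (φ D2) (φ bh) (φ wh) (φ th) (fun e => φ (c e)) r := by
  unfold half
  simp only [map_sum, map_mul, map_pow]

end cplx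

section core

open MvPolynomial

variable {Δ : ℕ} {A : Type} [CommRing A]

/-- the polynomial -/
noncomputable def QQ (cA : Ex Δ → A) (xA hA : A) (k : ℂ → A) (si tp xs : ℂ) :
    MvPolynomial (Fin 4) A :=
  let Rh : MvPolynomial (Fin 4) A := C (k (-(si / tp)) * xA) * X 2
  let D1 : MvPolynomial (Fin 4) A := C hA
  let D2 : MvPolynomial (Fin 4) A := C (k 2 * xA) * X 2 ^ 2
  let bh : MvPolynomial (Fin 4) A := C xA * X 2 ^ 2 - C (k si * hA) * X 3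
  let wh : MvPolynomial (Fin 4) A := -(X 0 + C (k tp) * (X 1 - C (k xs)))
  let th : MvPolynomial (Fin 4) A := bh * wh + C (k (2 * si * tp) * hA) * X 2
  D1 * half Rh D1 D2 bh wh th (fun e => C (cA e)) 0 ^ 2 -
    Rh * half Rh D1 D2 bh wh th (fun e => C (cA e)) 1 ^ 2

theorem QQ_val (cA : Ex Δ → A) (xA hA : A) (k : ℂ → A) (si tp xs : ℂ) (hsi : si ^ 2 = 1)
    (htp : tp ≠ 0) (ev : A →+* ℂ) (hk : ∀ z, ev (k z) = z) (x h J : ℂ) (hx : ev xA = x)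
    (hh : ev hA = h) (c : Ex Δ → ℂ) (hc : ∀ e, ev (cA e) = c e) (hJ : J * x = si * h)
    (v u : Fin 4 → ℂ) (hu0 : u 0 ≠ 0) (h2 : v 2 = -tp * J * u 0 ^ 2)
    (h3 : v 3 = tp ^ 2 * J * (u 0 ^ 4 - 2 * u 0 ^ 3 * u 1))
    (hw : u 2 = -(v 0 + tp * (v 1 - xs)) * u 0) (hs : u 0 * u 3 - u 1 * u 2 = -1) :
    eval₂ ev v (QQ cA xA hA k si tp xs) =
      h * (h ^ Δ * (2 * x * v 2 ^ 2) ^ Δ) ^ 2 * ((∑ e, c e * mc u e) *
        (∑ e, c e * mc (fun i => -(u i)) e)) := by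
  have hφ : eval₂ ev v (QQ cA xA hA k si tp xs) = (eval₂Hom ev v) (QQ cA xA hA k si tp xs) := rfl
  obtain ⟨b, hb⟩ : ∃ b, b = u 1 / u 0 := ⟨_, rfl⟩
  obtain ⟨w, hw'⟩ : ∃ w, w = -(v 0 + tp * (v 1 - xs)) := ⟨_, rfl⟩
  obtain ⟨t, ht⟩ : ∃ t, t = u 3 / u 0 := ⟨_, rfl⟩
  have hu1 : u 1 = u 0 * b := by rw [hb]; field_simp
  have hu2 : u 2 = u 0 * w := by rw [hw, hw']; ring
  have hu3 : u 3 = u 0 * t := by rw [ht]; field_simp
  have hs2 : u 0 ^ 2 * (t - b * w) = -1 := by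
    rw [← hs, hu1, hu2, hu3]
    ring
  have hu : u = ![u 0, u 0 * b, u 0 * w, u 0 * t] := by
    funext i
    fin_cases i
    · rfl
    · exact hu1
    · exact hu2
    · exact hu3
  -- the values of the parts
  have e1 : -(si / tp) * x * v 2 = h * u 0 ^ 2 := by
    rw [h2]
    have : -(si / tp) * x * (-tp * J * u 0 ^ 2) = si * (J * x) * u 0 ^ 2 * (tp / tp) := by ring
    rw [this, hJ, div_self htp]
    linear_combination (h * u 0 ^ 2) * hsi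
  have e2 : x * v 2 ^ 2 - si * h * v 3 = 2 * x * v 2 ^ 2 * b := by
    rw [h3, h2, hu1]
    have : x * (-tp * J * u 0 ^ 2) ^ 2 - si * h * (tp ^ 2 * J * (u 0 ^ 4 - 2 * u 0 ^ 3 * (u 0 * b))) -
      2 * x * (-tp * J * u 0 ^ 2) ^ 2 * b = tp ^ 2 * J * u 0 ^ 4 * (1 - 2 * b) * (J * x - si * h) := by
      ring
    rw [hJ, sub_self, mul_zero] at this
    exact sub_eq_zero.1 this
  have e3 : (x * v 2 ^ 2 - si * h * v 3) * w + 2 * si * tp * h * v 2 = 2 * x * v 2 ^ 2 * t := by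
    rw [e2]
    have h5 : 2 * si * tp * h * v 2 = 2 * x * v 2 ^ 2 * (t - b * w) := by
      have h6 : 2 * x * v 2 ^ 2 * (t - b * w) = 2 * tp * J * x * v 2 * -(u 0 ^ 2 * (t - b * w)) := by
        rw [h2]
        ring
      rw [h6, hs2]
      linear_combination (-2 * tp * v 2) * hJ
    rw [h5]
    ring
  rw [hφ]
  unfold QQ
  simp only [map_sub, map_mul, map_pow, map_half, eval₂Hom_C, eval₂Hom_X', map_add, map_neg, hk,
    hx, hh, hc]
  have e4 := val_eq h (2 * x * v 2 ^ 2) (u 0 ^ 2) (u 0) b w t rfl c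
  rw [← hu] at e4
  rw [← e4]
  rw [e1, e2, ← hw']
  rw [e2] at e3
  rw [e3]

theorem core (ev : ℝ → A →+* ℂ) (I : Set ℝ) (c : Ex Δ → ℝ → ℝ) (cA : Ex Δ → A)
    (hcA : ∀ e x, ev x (cA e) = (c e x : ℂ)) (xA hA : A) (g : ℕ) (hx : ∀ x, ev x xA = (x : ℂ))
    (hh : ∀ x, ev x hA = 1 - (g : ℂ) * (x : ℂ)) (k : ℂ → A) (hk : ∀ x z, ev x (k z) = z)
    (si tp xs : ℂ) (hsi : si ^ 2 = 1) (htp : tp ≠ 0) (J : ℝ → ℂ)
    (hJ : ∀ x ∈ I, x ≠ 0 ∧ J x ≠ 0 ∧ J x = si * (1 / (x : ℂ) - g)) (cur : ℝ → Fin 4 → ℂ)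
    (ut : ℝ → Fin 4 → ℝ)
    (hU : ∀ x ∈ I, 0 < ut x 0 ∧ cur x 2 = -tp * J x * (ut x 0 : ℂ) ^ 2 ∧
      cur x 3 = tp ^ 2 * J x * ((ut x 0 : ℂ) ^ 4 - 2 * (ut x 0 : ℂ) ^ 3 * (ut x 1 : ℂ)) ∧
      (ut x 2 : ℂ) = -(cur x 0 + tp * (cur x 1 - xs)) * (ut x 0 : ℂ) ∧
      ut x 0 * ut x 3 - ut x 1 * ut x 2 = -1)
    (hP : ∀ x ∈ I, ∑ e, c e x * mv (ut x) e = 0)
    (hvan : ∀ Q : MvPolynomial (Fin 4) A, (∀ x ∈ I, eval₂ (ev x) (cur x) Q = 0) → ∀ x ∈ I, ∀ v,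
      eval₂ (ev x) v Q = 0) : ∀ x ∈ I, ∀ e, c e x = 0 := by
  have hJx : ∀ x ∈ I, J x * (x : ℂ) = si * (1 - (g : ℂ) * (x : ℂ)) := by
    intro x hxI
    obtain ⟨h1, -, h2⟩ := hJ x hxI
    have h3 : (x : ℂ) ≠ 0 := by exact_mod_cast h1
    rw [h2]
    field_simp
  have h0 := hvan (QQ cA xA hA k si tp xs) (by
    intro x hxI
    obtain ⟨u1, u2, u3, u4, u5⟩ := hU x hxI
    rw [QQ_val cA xA hA k si tp xs hsi htp (ev x) (hk x) x (1 - (g : ℂ) * (x : ℂ)) (J x) (hx x)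
      (hh x) (fun e => (c e x : ℂ)) (fun e => hcA e x) (hJx x hxI) (cur x)
      (fun i => (ut x i : ℂ)) (by exact_mod_cast u1.ne') u2 u3 u4 (by exact_mod_cast u5)]
    have h1 : ∑ e, (c e x : ℂ) * mc (fun i => (ut x i : ℂ)) e = 0 := by
      simp only [mc_cast]
      exact_mod_cast hP x hxI
    rw [h1, zero_mul, mul_zero])
  intro x hxI
  refine surface_prod (fun e => c e x) fun y hy0 hy => ?_
  obtain ⟨h1, h2, h3⟩ := hJ x hxI
  have hyC : (y 0 : ℂ) ≠ 0 := by exact_mod_cast hy0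
  have hxC : (x : ℂ) ≠ 0 := by exact_mod_cast h1
  obtain ⟨v, hv⟩ : ∃ v : Fin 4 → ℂ, v = ![0, xs - (y 2 : ℂ) / (tp * (y 0 : ℂ)),
    -tp * J x * (y 0 : ℂ) ^ 2, tp ^ 2 * J x * ((y 0 : ℂ) ^ 4 - 2 * (y 0 : ℂ) ^ 3 * (y 1 : ℂ))] :=
    ⟨_, rfl⟩
  have h4 := QQ_val cA xA hA k si tp xs hsi htp (ev x) (hk x) x (1 - (g : ℂ) * (x : ℂ)) (J x)
    (hx x) (hh x) (fun e => (c e x : ℂ)) (fun e => hcA e x) (hJx x hxI) v
    (fun i => (y i : ℂ)) hyC (by rw [hv]; rfl) (by rw [hv]; rfl) (by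
      rw [hv]
      change (y 2 : ℂ) = -(0 + tp * (xs - (y 2 : ℂ) / (tp * (y 0 : ℂ)) - xs)) * (y 0 : ℂ)
      field_simp
      ring) (by exact_mod_cast hy)
  rw [h0 x hxI v] at h4
  have h5 : (1 - (g : ℂ) * (x : ℂ)) ≠ 0 := by
    intro h6
    have := hJx x hxI
    rw [h6, mul_zero] at this
    exact (mul_ne_zero h2 hxC) this
  have h6 : v 2 ≠ 0 := by
    rw [hv]
    exact mul_ne_zero (mul_ne_zero (neg_ne_zero.2 htp) h2) (pow_ne_zero _ hyC)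
  have h7 := (mul_eq_zero.1 h4.symm).resolve_left (mul_ne_zero h5 (pow_ne_zero _ (mul_ne_zero
    (pow_ne_zero _ h5) (pow_ne_zero _ (mul_ne_zero (mul_ne_zero two_ne_zero hxC)
      (pow_ne_zero _ h6))))))
  simp only [mc_neg] at h7
  simp only [mc_cast] at h7
  have h8 : ((((∑ e, c e x * mv y e) * (∑ e, (-1 : ℝ) ^ Nd e * c e x * mv y e) : ℝ)) : ℂ) = 0 := by
    push_cast
    rw [← h7]
    congr 1
    refine Finset.sum_congr rfl fun e _ => ?_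
    ring
  exact_mod_cast h8

end core

end Pool.Agent.Y259.K
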