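import Pool.Agent.Y120.K.Defs
import Pool.Agent.Y259.K.SBa

/-!
# K-SB: one shift, coefficients analytic on the closed interval
(helper259, for project JK of helper120)
-/

set_option autoImplicit false

open Filter Topology

namespace Pool.Agent.Y259.K

open Pool.Agent.Y113 Pool.Agent.Y37.GF Pool.Agent.Y120.J Pool.Agent.Y120.K

theorem ident_left {f : ℝ → ℝ} {a b : ℝ} (hf : AnalyticOnNhd ℝ f (Set.Ioo a b)) (hab : a < b)
    (h : ∀ᶠ z in 𝓝[>] a, f z = 0) : ∀ z ∈ Set.Ioo a b, f z = 0 := by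
  obtain ⟨c, hc, hcf⟩ := (mem_nhdsGT_iff_exists_Ioo_subset).1 h
  have hc' : a < c := hc
  obtain ⟨m, hm⟩ : ∃ m, m = (a + min b c) / 2 := ⟨_, rfl⟩
  have h1 : a < min b c := lt_min hab hc'
  have h2 : a < m := by rw [hm]; linarith
  have h3 : m < min b c := by rw [hm]; linarith
  have h4 : f =ᶠ[𝓝 m] 0 := by
    have : Set.Ioo a c ∈ 𝓝 m := Ioo_mem_nhds h2 (lt_of_lt_of_le h3 (min_le_right _ _))
    filter_upwards [this] with z hz
    exact hcf hz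
  intro z hz
  exact hf.eqOn_zero_of_preconnected_of_eventuallyEq_zero isPreconnected_Ioo
    ⟨h2, lt_of_lt_of_le h3 (min_le_left _ _)⟩ h4 hz

theorem z1_pos (s : Bool) {g : ℕ} (hg : 1 ≤ g) : 0 < Pool.Agent.Y120.K.z1 s g := by
  have h1 : (1 : ℝ) ≤ g := by exact_mod_cast hg
  have h2 : 0 ≤ Js s := by
    unfold Js
    split_ifs <;> norm_num
  unfold Pool.Agent.Y120.K.z1
  exact div_pos one_pos (by linarith)

theorem si_sq (s : Bool) : (((si s : ℤ) : ℂ)) ^ 2 = 1 := by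
  cases s
  · change (((-1 : ℤ) : ℂ)) ^ 2 = 1
    norm_num
  · change (((1 : ℤ) : ℂ)) ^ 2 = 1
    norm_num

theorem tpi_ne : tpi ≠ 0 := by
  unfold tpi
  exact mul_ne_zero (mul_ne_zero two_ne_zero (Complex.ofReal_ne_zero.2 Real.pi_ne_zero))
    Complex.I_ne_zero

theorem t_sb (s : Bool) (hc : T_CUR s) (hu : T_U s) (hv : T_VAN s) : T_SB s := by
  intro g hg Δ c hca hnear
  have _ := hc
  obtain ⟨u1, u2, u3⟩ := hu g hg
  have hP : ∀ x ∈ Set.Ioo 0 (Pool.Agent.Y120.K.z1 s g), ∑ e, c e x * mv (ut s g x) e = 0 := by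
    refine ident_left (f := fun x => ∑ e, c e x * mv (ut s g x) e) ?_ (z1_pos s hg) hnear
    intro x hx
    refine Finset.analyticAt_fun_sum _ fun e _ => ?_
    refine (hca e x ⟨hx.1.le, hx.2.le⟩).mul ?_
    unfold mv
    exact Finset.analyticAt_fun_prod _ fun i _ => (u1 x ⟨hx.1.le, hx.2⟩ i).pow _
  obtain ⟨cA, hcA⟩ : ∃ cA : Ex Δ → An s g, ∀ e x, (cA e : ℝ → ℂ) x = (c e x : ℂ) :=
    ⟨fun e => ⟨fun x => (c e x : ℂ), fun x hx =>
      (Complex.ofRealCLM.analyticAt _).comp (hca e x hx)⟩, fun e x => rfl⟩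
  obtain ⟨xA, hxA⟩ : ∃ xA : An s g, ∀ x, (xA : ℝ → ℂ) x = (x : ℂ) :=
    ⟨⟨fun x => (x : ℂ), fun x _ => Complex.ofRealCLM.analyticAt _⟩, fun x => rfl⟩
  obtain ⟨hA, hhA⟩ : ∃ hA : An s g, ∀ x, (hA : ℝ → ℂ) x = 1 - (g : ℂ) * (x : ℂ) :=
    ⟨⟨fun x => 1 - (g : ℂ) * (x : ℂ), fun x _ => analyticAt_const.sub
      (analyticAt_const.mul (Complex.ofRealCLM.analyticAt _))⟩, fun x => rfl⟩
  refine core (A := An s g) (fun x => (ea s g x : An s g →+* ℂ))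
    (Set.Ioo 0 (Pool.Agent.Y120.K.z1 s g)) c cA (fun e x => hcA e x) xA hA g (fun x => hxA x)
    (fun x => hhA x) (fun z => algebraMap ℂ (An s g) z) (fun x z => (ea s g x).commutes z)
    ((si s : ℤ) : ℂ) tpi (xs s : ℂ) (si_sq s) tpi_ne (Jx s g) ?_ (cur s g) (ut s g) ?_ hP (hv g hg)
  · intro x hx
    refine ⟨hx.1.ne', (u3 x hx).2.1, ?_⟩
    unfold Jx
    push_cast
    rfl
  · intro x hx
    obtain ⟨a1, -, a2, a3, a4, a5⟩ := u3 x hx
    exact ⟨a1, a2, a3, a4, a5⟩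

end Pool.Agent.Y259.K
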